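import Pool.Agent.Helper14.AY.GoalsB

/-!
# AY: derivatives of solutions of linear equations (`S_DQL`)
-/

open Complex Metric Set Filter Topology MeasureTheory
open scoped ContDiff ComplexConjugate ComplexOrder Manifold Matrix

namespace Pool.Agent.Helper2.AY

open Pool.Agent.Helper95.Lin Pool.Agent.Helper16.Abund Pool.Agent.Helper92.Orb Pool.Agent.Helper10.SP
  Pool.Agent.Helper95.RK Pool.Agent.Helper57.HS Pool.Agent.Helper14.AY

lemma hk_local {n : ℕ} {E : Type} [NormedAddCommGroup E] [NormedSpace ℝ E] (a : ℝ) (W : Set (Cn n))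
    (k : ℕ) : ∀ (f : Cn n → E), (∀ x ∈ W, ∃ r > 0, Hk a (ball x r) k f) → Hk a W k f := by
  induction k with
  | zero =>
    intro f h x hx
    obtain ⟨r, hr, hH⟩ := h x hx
    exact hH x (mem_ball_self hr)
  | succ k ih =>
    intro f h
    refine ⟨?_, ?_⟩
    · intro x hx
      obtain ⟨r, hr, hH⟩ := h x hx
      exact ((hH.1 x (mem_ball_self hr)).contDiffAt (ball_mem_nhds x hr)).contDiffWithinAt
    · intro v
      refine ih _ ?_
      intro x hx
      obtain ⟨r, hr, hH⟩ := h x hx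
      exact ⟨r, hr, hH.2 v⟩

lemma cb_mono {n : ℕ} {E : Type*} [NormedAddCommGroup E] {a K K' : ℝ} {S S' : Set (Cn n)}
    {f : Cn n → E} (h : CB a S K f) (hS : S' ⊆ S) (hK : K ≤ K') : CB a S' K' f := by
  refine ⟨fun x hx => (h.1 x (hS hx)).trans hK, fun x hx y hy => ?_⟩
  refine (h.2 x (hS hx) y (hS hy)).trans ?_
  exact mul_le_mul_of_nonneg_right hK (Real.rpow_nonneg (norm_nonneg _) _)

/-- A function has the `CB` bounds on all small balls. -/
def Ev {n : ℕ} {E : Type*} [NormedAddCommGroup E] (a : ℝ) (x₀ : Cn n) (f : Cn n → E) : Prop :=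
  ∃ K, 0 ≤ K ∧ ∀ᶠ ρ in 𝓝[>] (0 : ℝ), CB a (ball x₀ ρ) K f

lemma ev_lh {n : ℕ} {E : Type} [NormedAddCommGroup E] {a : ℝ} (ha : 0 < a) {W : Set (Cn n)}
    {f : Cn n → E} (h : LH a W f) {x₀ : Cn n} (hx₀ : x₀ ∈ W) : Ev a x₀ f := by
  obtain ⟨U, hU, K, hK⟩ := h x₀ hx₀
  obtain ⟨ρ, hρ, hsub⟩ := Metric.mem_nhds_iff.1 hU
  refine ⟨‖f x₀‖ + |K|, by positivity, ?_⟩
  have h1 : ∀ᶠ t in 𝓝[>] (0 : ℝ), t < min ρ 1 := by
    have : ∀ᶠ t in 𝓝 (0 : ℝ), t < min ρ 1 := by
      apply eventually_lt_nhds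
      exact lt_min hρ one_pos
    exact this.filter_mono nhdsWithin_le_nhds
  filter_upwards [h1, self_mem_nhdsWithin] with t ht ht0
  have ht0' : 0 < t := ht0
  have hsub' : ball x₀ t ⊆ U := (ball_subset_ball (ht.le.trans (min_le_left _ _))).trans hsub
  have hx₀U : x₀ ∈ U := hsub (mem_ball_self hρ)
  refine ⟨fun x hx => ?_, fun x hx y hy => ?_⟩
  · have h2 := hK x (hsub' hx) x₀ hx₀U
    have h3 : ‖x - x₀‖ ^ a ≤ 1 := by
      apply Real.rpow_le_one (norm_nonneg _) _ ha.le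
      rw [mem_ball, dist_eq_norm] at hx
      exact (hx.trans (ht.trans_le (min_le_right _ _))).le
    have h3' : (0 : ℝ) ≤ ‖x - x₀‖ ^ a := Real.rpow_nonneg (norm_nonneg _) _
    have h4 : K * ‖x - x₀‖ ^ a ≤ |K| := by
      calc K * ‖x - x₀‖ ^ a ≤ |K| * ‖x - x₀‖ ^ a := mul_le_mul_of_nonneg_right (le_abs_self K) h3'
        _ ≤ |K| * 1 := mul_le_mul_of_nonneg_left h3 (abs_nonneg K)
        _ = |K| := mul_one _
    calc ‖f x‖ = ‖f x₀ + (f x - f x₀)‖ := by congr 1; abel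
      _ ≤ ‖f x₀‖ + ‖f x - f x₀‖ := norm_add_le _ _
      _ ≤ ‖f x₀‖ + |K| := by linarith
  · refine (hK x (hsub' hx) y (hsub' hy)).trans ?_
    apply mul_le_mul_of_nonneg_right _ (Real.rpow_nonneg (norm_nonneg _) _)
    linarith [le_abs_self K, norm_nonneg (f x₀)]

lemma ev_all {n : ℕ} {ι : Type*} [Fintype ι] {E : Type*} [NormedAddCommGroup E] {a : ℝ}
    {x₀ : Cn n} {f : ι → Cn n → E} (h : ∀ i, Ev a x₀ (f i)) :
    ∃ K, 0 ≤ K ∧ ∀ᶠ ρ in 𝓝[>] (0 : ℝ), ∀ i, CB a (ball x₀ ρ) K (f i) := by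
  choose K hK0 hK using h
  refine ⟨∑ i, K i, Finset.sum_nonneg fun i _ => hK0 i, ?_⟩
  rw [eventually_all]
  intro i
  filter_upwards [hK i] with ρ hρ
  exact cb_mono hρ subset_rfl (Finset.single_le_sum (f := K) (fun i _ => hK0 i) (Finset.mem_univ i))

/-- The coordinate in the real basis. -/
noncomputable def co {n : ℕ} (b : Fin n × Bool) (z : Cn n) : ℝ := if b.2 then (z b.1).im else (z b.1).re

lemma co_le {n : ℕ} (b : Fin n × Bool) (z : Cn n) : |co b z| ≤ ‖z‖ := by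
  unfold co
  split_ifs
  · exact (Complex.abs_im_le_norm _).trans (norm_le_pi_norm z b.1)
  · exact (Complex.abs_re_le_norm _).trans (norm_le_pi_norm z b.1)

lemma sum_co {n : ℕ} (z : Cn n) : z = ∑ b : Fin n × Bool, co b z • rb b := by
  rw [Fintype.sum_prod_type]
  simp only [Fintype.sum_bool, co, rb, if_true]
  ext j
  simp only [Finset.sum_apply, Pi.add_apply, Pi.smul_apply, Pi.single_apply]
  rw [Finset.sum_eq_single j]
  · simp only [if_true]
    apply Complex.ext <;> simp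
  · intro i _ hi
    simp [Ne.symm hi]
  · simp

lemma norm_le_basis {n : ℕ} {E : Type*} [NormedAddCommGroup E] [NormedSpace ℝ E]
    (L : Cn n →L[ℝ] E) : ‖L‖ ≤ ∑ b : Fin n × Bool, ‖L (rb b)‖ := by
  refine L.opNorm_le_bound (Finset.sum_nonneg fun b _ => norm_nonneg _) fun z => ?_
  conv_lhs => rw [sum_co z]
  rw [map_sum]
  calc ‖∑ b, L (co b z • rb b)‖ ≤ ∑ b, ‖L (co b z • rb b)‖ := norm_sum_le _ _
    _ ≤ ∑ b, ‖L (rb b)‖ * ‖z‖ := by
        apply Finset.sum_le_sum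
        intro b _
        rw [map_smul, norm_smul, mul_comm]
        exact mul_le_mul_of_nonneg_left (co_le b z) (norm_nonneg _)
    _ = (∑ b, ‖L (rb b)‖) * ‖z‖ := by rw [Finset.sum_mul]

lemma ev_fderiv {n : ℕ} {E : Type} [NormedAddCommGroup E] [NormedSpace ℝ E] {a : ℝ} (ha : 0 < a)
    {W : Set (Cn n)} {f : Cn n → E} (h : Hk a W 1 f) {x₀ : Cn n} (hx₀ : x₀ ∈ W) :
    Ev a x₀ (fderiv ℝ f) := by
  have h1 : ∀ b : Fin n × Bool, Ev a x₀ (fun x => fderiv ℝ f x (rb b)) := fun b =>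
    ev_lh ha (h.2 (rb b)) hx₀
  obtain ⟨K, hK0, hK⟩ := ev_all h1
  refine ⟨∑ _b : Fin n × Bool, K, Finset.sum_nonneg fun _ _ => hK0, ?_⟩
  filter_upwards [hK] with ρ hρ
  refine ⟨fun x hx => ?_, fun x hx y hy => ?_⟩
  · exact (norm_le_basis _).trans (Finset.sum_le_sum fun b _ => (hρ b).1 x hx)
  · refine (norm_le_basis _).trans ?_
    rw [Finset.sum_mul]
    exact Finset.sum_le_sum fun b _ => (hρ b).2 x hx y hy

lemma cb_mul {n : ℕ} {a K₁ K₂ : ℝ} {S : Set (Cn n)} {f g : Cn n → ℂ} (hf : CB a S K₁ f)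
    (hg : CB a S K₂ g) (h1 : 0 ≤ K₁) (h2 : 0 ≤ K₂) :
    CB a S (2 * K₁ * K₂) (fun x => f x * g x) := by
  refine ⟨fun x hx => ?_, fun x hx y hy => ?_⟩
  · rw [norm_mul]
    have := mul_le_mul (hf.1 x hx) (hg.1 x hx) (norm_nonneg _) h1
    nlinarith [mul_nonneg h1 h2]
  · have e : f x * g x - f y * g y = f x * (g x - g y) + (f x - f y) * g y := by ring
    have ht : (0 : ℝ) ≤ ‖x - y‖ ^ a := Real.rpow_nonneg (norm_nonneg _) _
    rw [e]
    calc ‖f x * (g x - g y) + (f x - f y) * g y‖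
        ≤ ‖f x‖ * ‖g x - g y‖ + ‖f x - f y‖ * ‖g y‖ := by
          refine (norm_add_le _ _).trans ?_
          rw [norm_mul, norm_mul]
      _ ≤ K₁ * (K₂ * ‖x - y‖ ^ a) + K₁ * ‖x - y‖ ^ a * K₂ := by
          apply add_le_add
          · exact mul_le_mul (hf.1 x hx) (hg.2 x hx y hy) (norm_nonneg _) h1
          · exact mul_le_mul (hf.2 x hx y hy) (hg.1 y hy) (norm_nonneg _) (mul_nonneg h1 ht)
      _ = 2 * K₁ * K₂ * ‖x - y‖ ^ a := by ring

lemma cb_sub {n : ℕ} {E : Type*} [NormedAddCommGroup E] {a K₁ K₂ : ℝ} {S : Set (Cn n)}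
    {f g : Cn n → E} (hf : CB a S K₁ f) (hg : CB a S K₂ g) :
    CB a S (K₁ + K₂) (fun x => f x - g x) := by
  refine ⟨fun x hx => ?_, fun x hx y hy => ?_⟩
  · exact (norm_sub_le _ _).trans (add_le_add (hf.1 x hx) (hg.1 x hx))
  · have e : f x - g x - (f y - g y) = (f x - f y) - (g x - g y) := by abel
    rw [e, add_mul]
    exact (norm_sub_le _ _).trans (add_le_add (hf.2 x hx y hy) (hg.2 x hx y hy))

lemma cb_sum {n : ℕ} {ι : Type*} [Fintype ι] {E : Type*} [NormedAddCommGroup E] {a : ℝ}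
    {K : ι → ℝ} {S : Set (Cn n)} {f : ι → Cn n → E} (hf : ∀ i, CB a S (K i) (f i)) :
    CB a S (∑ i, K i) (fun x => ∑ i, f i x) := by
  refine ⟨fun x hx => ?_, fun x hx y hy => ?_⟩
  · exact (norm_sum_le _ _).trans (Finset.sum_le_sum fun i _ => (hf i).1 x hx)
  · rw [← Finset.sum_sub_distrib, Finset.sum_mul]
    exact (norm_sum_le _ _).trans (Finset.sum_le_sum fun i _ => (hf i).2 x hx y hy)

lemma cb_shift {n : ℕ} {E : Type*} [NormedAddCommGroup E] {a K : ℝ} {S S' : Set (Cn n)}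
    {f : Cn n → E} {w : Cn n} (hf : CB a S K f) (hS : ∀ x ∈ S', x + w ∈ S) :
    CB a S' K (fun x => f (x + w)) := by
  refine ⟨fun x hx => hf.1 _ (hS x hx), fun x hx y hy => ?_⟩
  have h := hf.2 _ (hS x hx) _ (hS y hy)
  rwa [add_sub_add_right_eq_sub] at h

lemma trace_mul' {n : ℕ} (A B : Matrix (Fin n) (Fin n) ℂ) :
    Matrix.trace (A * B) = ∑ i, ∑ j, A i j * B j i := by
  simp [Matrix.trace, Matrix.mul_apply]

theorem dql (hDQG : S_DQG) (hDQB : S_DQB) (hDQM : S_DQM) (hELC : S_ELC) (hHCA : S_HCA)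
    (hHCB : S_HCB) (hDLM : S_DLM) : S_DQL := by
  intro n a W A F v ha0 ha1 hW hpos hA hF hv heq
  have hca := hHCA a W ha0 ha1.le hW
  have hcb := hHCB a W ha0 ha1.le hW
  have hv2 : ContDiffOn ℝ 2 v W := (hcb.2.1 v 0 hv).1
  have hLM : ∀ i j, LH a W fun x => LM v x i j := fun i j => (hcb.2.1 v 0 hv).2 i j
  have hALH : ∀ i j, LH a W fun x => A x i j := fun i j =>
    hca.2.1 ℂ (fun x => A x i j) 0 (hA i j)
  have hAc : ∀ i j, ContinuousOn (fun x => A x i j) W := fun i j => (hA i j).1.continuousOn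
  -- first part
  have part1 : ∀ e : Cn n, Hk a W 2 fun x => fderiv ℝ v x e := by
    intro e
    refine hk_local a W 2 _ ?_
    intro x₀ hx₀
    obtain ⟨r', hr', lam, hlam, hcl, hEll⟩ := hELC W A hW hpos hAc x₀ hx₀
    obtain ⟨K1, hK1, hc1⟩ := ev_all (f := fun (p : Fin n × Fin n) x => A x p.1 p.2)
      fun p => ev_lh ha0 (hALH p.1 p.2) hx₀
    obtain ⟨K2, hK2, hc2⟩ := ev_all (f := fun (p : Fin n × Fin n) => fderiv ℝ fun x => A x p.1 p.2)
      fun p => ev_fderiv ha0 (hA p.1 p.2) hx₀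
    obtain ⟨K3, hK3, hc3⟩ := ev_all (f := fun (p : Fin n × Fin n) x => LM v x p.1 p.2)
      fun p => ev_lh ha0 (hLM p.1 p.2) hx₀
    obtain ⟨K4, hK4, hc4⟩ := ev_fderiv ha0 hF hx₀
    have hsm : ∀ᶠ ρ in 𝓝[>] (0 : ℝ), ρ < r' := (eventually_lt_nhds hr').filter_mono
      nhdsWithin_le_nhds
    obtain ⟨r₀, hr1, hr2, hr3, hr4, hr5, hr6⟩ := (hc1.and (hc2.and (hc3.and (hc4.and
      (hsm.and self_mem_nhdsWithin))))).exists
    have hr₀ : 0 < r₀ := hr6
    have hbW : ball x₀ r₀ ⊆ W := (ball_subset_closedBall.trans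
      (closedBall_subset_closedBall hr5.le)).trans hcl
    have hhalf : ball x₀ (r₀ / 2) ⊆ ball x₀ r₀ := ball_subset_ball (by linarith)
    set K5 : ℝ := K4 * ‖e‖ + ∑ _i : Fin n, ∑ _j : Fin n, 2 * (K2 * ‖e‖) * K3 with hK5
    have hK50 : 0 ≤ K5 := by positivity
    refine hDQG a lam (K1 + K5) r₀ x₀ e v ha0 ha1 hlam hr₀ ?_ ?_
    · exact hca.2.2.1 ℝ v 2 (ball x₀ r₀) isOpen_ball hbW hv
    · have htend : Tendsto (fun m : ℕ => (1 / (m + 1 : ℝ)) * ‖e‖) atTop (𝓝 0) := by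
        have := tendsto_one_div_add_atTop_nhds_zero_nat (𝕜 := ℝ)
        simpa using this.mul_const ‖e‖
      filter_upwards [htend.eventually (eventually_lt_nhds (show (0 : ℝ) < r₀ / 2 by linarith))]
        with m hm
      set h : ℝ := 1 / (m + 1 : ℝ) with hh
      have hh0 : 0 < h := by positivity
      have hshift : ∀ x ∈ ball x₀ (r₀ / 2), x + h • e ∈ ball x₀ r₀ := by
        intro x hx
        rw [mem_ball, dist_eq_norm] at hx ⊢
        calc ‖x + h • e - x₀‖ = ‖(x - x₀) + h • e‖ := by congr 1; abel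
          _ ≤ ‖x - x₀‖ + ‖h • e‖ := norm_add_le _ _
          _ = ‖x - x₀‖ + h * ‖e‖ := by rw [norm_smul, Real.norm_of_nonneg hh0.le]
          _ < r₀ := by linarith
      have h2r : 2 * (r₀ / 2) = r₀ := by ring
      refine ⟨A, fun x => dq e h F x - ∑ i, ∑ j, dq e h (fun y => A y i j) x *
        LM v (x + h • e) j i, ?_, ?_, ?_, ?_⟩
      · intro x hx
        exact hEll x (closedBall_subset_closedBall (by linarith) (ball_subset_closedBall hx))
      · intro i j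
        exact cb_mono (hr1 (i, j)) hhalf (by linarith)
      · have hF1 := (hDQB ℂ a K4 h (r₀ / 2) x₀ e F ha0 ha1.le hK4 hh0 hm
          (by rw [h2r]; exact hF.1.mono hbW) (by rw [h2r]; exact hr4)).2.1
        have hA1 : ∀ i j, CB a (ball x₀ (r₀ / 2)) (K2 * ‖e‖) (dq e h fun y => A y i j) := fun i j =>
          (hDQB ℂ a K2 h (r₀ / 2) x₀ e (fun y => A y i j) ha0 ha1.le hK2 hh0 hm
          (by rw [h2r]; exact (hA i j).1.mono hbW) (by rw [h2r]; exact hr2 (i, j))).2.1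
        have hL1 : ∀ i j, CB a (ball x₀ (r₀ / 2)) K3 (fun x => LM v (x + h • e) j i) := fun i j =>
          cb_shift (f := fun x => LM v x j i) (hr3 (j, i)) hshift
        have hS : CB a (ball x₀ (r₀ / 2)) (∑ _i : Fin n, ∑ _j : Fin n, 2 * (K2 * ‖e‖) * K3)
            (fun x => ∑ i, ∑ j, dq e h (fun y => A y i j) x * LM v (x + h • e) j i) :=
          cb_sum fun i => cb_sum fun j => cb_mul (hA1 i j) (hL1 i j) (by positivity) hK3
        exact cb_mono (cb_sub hF1 hS) subset_rfl (by linarith)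
      · intro x hx
        have hxW : x ∈ W := hbW (hhalf hx)
        have hxW' : x + h • e ∈ W := hbW (hshift x hx)
        have hd := (hDQM W v hW hv2 e h x hxW hxW').2.2
        have e1 := heq x hxW
        have e2 := heq _ hxW'
        rw [trace_mul'] at e1 e2 ⊢
        have e3 : ∀ i j, LM (dq e h v) x i j = (h : ℂ)⁻¹ * (LM v (x + h • e) i j - LM v x i j) := by
          intro i j
          rw [hd i j]
          simp only [dq]
          rw [← Complex.ofReal_inv, Complex.real_smul]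
        have e4 : ∀ i j, dq e h (fun y => A y i j) x = (h : ℂ)⁻¹ * (A (x + h • e) i j - A x i j) := by
          intro i j
          simp only [dq]
          rw [← Complex.ofReal_inv, Complex.real_smul]
        have e5 : dq e h F x = (h : ℂ)⁻¹ * (F (x + h • e) - F x) := by
          simp only [dq]
          rw [← Complex.ofReal_inv, Complex.real_smul]
        simp only [e3, e4]
        rw [e5, ← e1, ← e2, ← Finset.sum_sub_distrib, Finset.mul_sum, ← Finset.sum_sub_distrib]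
        refine Finset.sum_congr rfl fun i _ => ?_
        rw [← Finset.sum_sub_distrib, Finset.mul_sum, ← Finset.sum_sub_distrib]
        refine Finset.sum_congr rfl fun j _ => ?_
        ring
  intro e
  refine ⟨part1 e, ?_⟩
  intro x hx
  have hdl := hDLM a W ha0 ha1.le hW v hv part1 x hx e
  have hev : F =ᶠ[𝓝 x] fun y => ∑ i, ∑ j, A y i j * LM v y j i := by
    filter_upwards [hW.mem_nhds hx] with y hy
    rw [← heq y hy, trace_mul']
  have hAd : ∀ i j, HasFDerivAt (fun y => A y i j) (fderiv ℝ (fun y => A y i j) x) x := fun i j =>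
    (((hA i j).1.differentiableOn one_ne_zero x hx).differentiableAt (hW.mem_nhds hx)).hasFDerivAt
  have hLd : ∀ i j, HasFDerivAt (fun y => LM v y j i) (fderiv ℝ (fun y => LM v y j i) x) x :=
    fun i j => (hdl j i).1.hasFDerivAt
  have hFd : HasFDerivAt (fun y => ∑ i, ∑ j, A y i j * LM v y j i)
      (∑ i, ∑ j, (A x i j • fderiv ℝ (fun y => LM v y j i) x +
        LM v x j i • fderiv ℝ (fun y => A y i j) x)) x :=
    HasFDerivAt.fun_sum fun i _ => HasFDerivAt.fun_sum fun j _ => (hAd i j).mul (hLd i j)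
  rw [hev.fderiv_eq, hFd.fderiv, trace_mul']
  simp only [ContinuousLinearMap.sum_apply, ContinuousLinearMap.add_apply,
    ContinuousLinearMap.smul_apply, smul_eq_mul]
  rw [← Finset.sum_sub_distrib]
  refine Finset.sum_congr rfl fun i _ => ?_
  rw [← Finset.sum_sub_distrib]
  refine Finset.sum_congr rfl fun j _ => ?_
  rw [(hdl j i).2]
  ring

end Pool.Agent.Helper2.AY
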